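import Pool.Agent.Helper93.KS.St2

/-!
# Project KS (MP_77e955_nt): module DYB, the exceptional `n` for one box
-/

set_option autoImplicit false

noncomputable section

namespace Pool.Agent.Helper40.KS

open Finset Filter Topology Pool.Agent.Helper93.KS
open Pool.Agent.Helper15.AB (SP StML)
open Pool.Agent.Helper9.TW (gm)
open Pool.Agent.Helper93.KP (gk vk tk rn gn TK qk StRTS)

/-- few primes divide `n ^ 2 - 4` -/
private theorem few (n N : ℕ) (hn : 3 ≤ n) (hnN : n ≤ 2 * N) (hN : 2 ≤ N) (T : Finset ℕ)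
    (hT : ∀ p ∈ T, p.Prime ∧ (p : ℤ) ∣ (n : ℤ) ^ 2 - 4) : (T.card : ℝ) ≤ 8 * Real.log N := by
  have h4 : 4 ≤ n ^ 2 := by nlinarith
  have hsub : T ⊆ (n ^ 2 - 4).primeFactors := by
    intro p hp
    obtain ⟨h1, h2⟩ := hT p hp
    rw [Nat.mem_primeFactors]
    refine ⟨h1, ?_, ?_⟩
    · have : ((n ^ 2 - 4 : ℕ) : ℤ) = (n : ℤ) ^ 2 - 4 := by
        rw [Nat.cast_sub h4]; push_cast; ring
      rw [← this] at h2
      exact_mod_cast h2
    · have : 9 ≤ n ^ 2 := by nlinarith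
      omega
  have h1 : 2 ^ T.card ≤ n ^ 2 - 4 := by
    have h9 : 9 ≤ n ^ 2 := by nlinarith
    calc 2 ^ T.card ≤ 2 ^ (n ^ 2 - 4).primeFactors.card := Nat.pow_le_pow_right (by norm_num) (card_le_card hsub)
      _ ≤ ∏ p ∈ (n ^ 2 - 4).primeFactors, p := by
          rw [← Finset.prod_const]
          exact Finset.prod_le_prod' fun p hp => (Nat.prime_of_mem_primeFactors hp).two_le
      _ ≤ n ^ 2 - 4 := Nat.le_of_dvd (by omega) (Nat.prod_primeFactors_dvd _)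
  have h2 : 2 ^ T.card ≤ N ^ 4 := by
    have h3 : n ^ 2 ≤ (2 * N) ^ 2 := Nat.pow_le_pow_left hnN 2
    have h5 : (2 * N) ^ 2 ≤ N ^ 4 := by
      have : 2 * N ≤ N ^ 2 := by nlinarith
      calc (2 * N) ^ 2 ≤ (N ^ 2) ^ 2 := Nat.pow_le_pow_left this 2
        _ = N ^ 4 := by ring
    omega
  have h3 : (T.card : ℝ) * Real.log 2 ≤ 4 * Real.log N := by
    have h5 : (2 : ℝ) ^ T.card ≤ (N : ℝ) ^ 4 := by exact_mod_cast h2
    have h6 := Real.log_le_log (by positivity) h5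
    rw [Real.log_pow, Real.log_pow] at h6
    push_cast at h6
    exact h6
  have hl := Real.log_two_gt_d9
  have hc : (0 : ℝ) ≤ T.card := Nat.cast_nonneg _
  nlinarith

/-- the index of the dyadic interval -/
private def idx (P : ℝ) (p : ℕ) : ℕ := Nat.log 2 ⌊(p : ℝ) / P⌋₊

private theorem idx_spec (P : ℝ) (p : ℕ) (hP : 0 < P) (hp : P ≤ (p : ℝ)) :
    (2 : ℝ) ^ idx P p * P ≤ p ∧ (p : ℝ) < 2 * ((2 : ℝ) ^ idx P p * P) := by
  have h1 : 1 ≤ (p : ℝ) / P := by rw [le_div_iff₀ hP]; linarith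
  have h2 : 1 ≤ ⌊(p : ℝ) / P⌋₊ := Nat.one_le_floor_iff _ |>.2 h1
  have h3 : (2 : ℕ) ^ idx P p ≤ ⌊(p : ℝ) / P⌋₊ := Nat.pow_log_le_self 2 (by omega)
  have h4 : ⌊(p : ℝ) / P⌋₊ < 2 ^ (idx P p + 1) := Nat.lt_pow_succ_log_self (by norm_num) _
  have h5 : (⌊(p : ℝ) / P⌋₊ : ℝ) ≤ (p : ℝ) / P := Nat.floor_le (by linarith)
  have h6 : (p : ℝ) / P < (⌊(p : ℝ) / P⌋₊ : ℝ) + 1 := Nat.lt_floor_add_one _
  have h3' : (2 : ℝ) ^ idx P p ≤ (⌊(p : ℝ) / P⌋₊ : ℝ) := by exact_mod_cast h3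
  have h4' : (⌊(p : ℝ) / P⌋₊ : ℝ) + 1 ≤ (2 : ℝ) ^ (idx P p + 1) := by exact_mod_cast h4
  constructor
  · have h7 : (2 : ℝ) ^ idx P p ≤ (p : ℝ) / P := h3'.trans h5
    rwa [le_div_iff₀ hP] at h7
  · have h7 : (p : ℝ) / P < (2 : ℝ) ^ (idx P p + 1) := h6.trans_le h4'
    rw [div_lt_iff₀ hP, pow_succ] at h7
    linarith

private theorem idx_lt (P : ℝ) (p N : ℕ) (hP : 0 < P) (hp : (p : ℝ) ≤ N * P) : idx P p < Nat.log 2 N + 1 := by
  have h1 : (p : ℝ) / P ≤ N := by rw [div_le_iff₀ hP]; exact hp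
  have h2 : ⌊(p : ℝ) / P⌋₊ ≤ N := by
    have := Nat.floor_le_floor h1
    rwa [Nat.floor_natCast] at this
  have h3 : Nat.log 2 ⌊(p : ℝ) / P⌋₊ ≤ Nat.log 2 N := Nat.log_mono_right h2
  unfold idx
  omega

/-- the comparison of the two sums -/
private theorem cmp_sum (n N f : ℕ) [NeZero f] (ψ : DirichletCharacter ℂ f) (P : ℝ) (hn : 3 ≤ n) (hnN : n ≤ 2 * N)
    (hN : 2 ≤ N) (hP : 7 ≤ P) (S : Finset ℕ) (hS : ∀ p ∈ S, p.Prime ∧ P ≤ (p : ℝ))
    (hψ : ∀ p : ℕ, p.Prime → 7 ≤ p → ¬ (p : ℤ) ∣ (n : ℤ) ^ 2 - 4 → ψ (p : ZMod f) = (sx n p : ℂ)) :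
    |∑ p ∈ S, sx n p / p| ≤ ‖∑ p ∈ S, ψ (p : ZMod f) / p‖ + 16 * Real.log N / P := by
  have h1 : ((∑ p ∈ S, sx n p / p : ℝ) : ℂ) = ∑ p ∈ S, ψ (p : ZMod f) / p +
      ∑ p ∈ S, ((sx n p : ℂ) - ψ (p : ZMod f)) / p := by
    rw [← Finset.sum_add_distrib]
    push_cast
    refine Finset.sum_congr rfl fun p _ => ?_
    ring
  have h2 : |∑ p ∈ S, sx n p / p| = ‖((∑ p ∈ S, sx n p / p : ℝ) : ℂ)‖ := by
    rw [Complex.norm_real, Real.norm_eq_abs]
  rw [h2, h1]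
  refine (norm_add_le _ _).trans (add_le_add le_rfl ?_)
  have hP0 : 0 < P := by linarith
  obtain ⟨T, hT⟩ : ∃ T : Finset ℕ, T = S.filter (fun p : ℕ => (p : ℤ) ∣ (n : ℤ) ^ 2 - 4) := ⟨_, rfl⟩
  have h3 : ∑ p ∈ S, ((sx n p : ℂ) - ψ (p : ZMod f)) / p = ∑ p ∈ T, ((sx n p : ℂ) - ψ (p : ZMod f)) / p := by
    rw [hT, Finset.sum_filter]
    refine Finset.sum_congr rfl fun p hp => ?_
    split_ifs with h
    · rfl
    · obtain ⟨hpp, hpP⟩ := hS p hp
      have h7 : 7 ≤ p := by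
        have : (7 : ℝ) ≤ p := hP.trans hpP
        exact_mod_cast this
      rw [hψ p hpp h7 h, sub_self, zero_div]
  rw [h3]
  refine (norm_sum_le _ _).trans ?_
  have h4 : ∀ p ∈ T, ‖((sx n p : ℂ) - ψ (p : ZMod f)) / p‖ ≤ 2 / P := by
    intro p hp
    rw [hT, Finset.mem_filter] at hp
    obtain ⟨hpp, hpP⟩ := hS p hp.1
    have hsx : sx n p = 1 := by
      unfold sx
      rw [if_pos hp.2]
    have h5 : ‖(sx n p : ℂ) - ψ (p : ZMod f)‖ ≤ 2 := by
      refine (norm_sub_le _ _).trans ?_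
      have h6 := DirichletCharacter.norm_le_one ψ (p : ZMod f)
      rw [hsx]
      simp only [Complex.ofReal_one, norm_one]
      linarith
    rw [norm_div, Complex.norm_natCast]
    exact div_le_div₀ (by norm_num) h5 hP0 hpP
  refine (Finset.sum_le_card_nsmul _ _ _ h4).trans ?_
  rw [nsmul_eq_mul]
  have h5 : (T.card : ℝ) ≤ 8 * Real.log N := by
    refine few n N hn hnN hN T ?_
    intro p hp
    rw [hT, Finset.mem_filter] at hp
    exact ⟨(hS p hp.1).1, hp.2⟩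
  calc (T.card : ℝ) * (2 / P) ≤ (8 * Real.log N) * (2 / P) := mul_le_mul_of_nonneg_right h5 (by positivity)
    _ = 16 * Real.log N / P := by ring

theorem hDYB (hP : StPSI) (hL : StLSC) : StDYB := by
  intro u i η hu hi hη
  obtain ⟨f, hfz, ψ, hψ1, hψ2⟩ := hP
  obtain ⟨m, hm⟩ : ∃ m : ℕ, m = 400 * u := ⟨_, rfl⟩
  obtain ⟨C, hC, hLm⟩ := hL m (by omega)
  refine ⟨2 * m + 2, ?_⟩
  have hu0 : (0 : ℝ) < u := by exact_mod_cast hu
  have hi1 : (1 : ℝ) ≤ i := by exact_mod_cast hi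
  obtain ⟨ω, hω⟩ : ∃ ω : ℝ, ω = 1 / (100 * (u : ℝ)) := ⟨_, rfl⟩
  have hω0 : 0 < ω := by rw [hω]; positivity
  have hω1 : ω ≤ 1 := by
    rw [hω, div_le_one (by positivity)]
    have : (1 : ℝ) ≤ u := by exact_mod_cast hu
    linarith
  have hiω : 0 < (i : ℝ) * ω := by positivity
  have hmi : 4 ≤ (i : ℝ) * ω * m := by
    have : (i : ℝ) * ω * m = 4 * i := by
      rw [hω, hm]
      push_cast
      field_simp
      ring
    rw [this]; linarith
  -- conditions on `N`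
  have e1 : ∀ᶠ N : ℕ in atTop, (7 : ℝ) ≤ (N : ℝ) ^ ((i : ℝ) * ω) :=
    ((tendsto_rpow_atTop hiω).comp tendsto_natCast_atTop_atTop).eventually_ge_atTop 7
  have e2 : ∀ᶠ N : ℕ in atTop, Real.log N ≤ η / 32 * (N : ℝ) ^ ((i : ℝ) * ω) := by
    have h1 := (isLittleO_log_rpow_atTop hiω).def (c := η / 32) (by positivity)
    have h2 := tendsto_natCast_atTop_atTop (R := ℝ) |>.eventually h1
    filter_upwards [h2] with N hN
    rw [Real.norm_eq_abs, Real.norm_eq_abs] at hN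
    rw [abs_of_nonneg (by positivity : (0 : ℝ) ≤ (N : ℝ) ^ ((i : ℝ) * ω))] at hN
    exact (le_abs_self _).trans hN
  have e3 : ∀ᶠ N : ℕ in atTop, 2 * C * (4 / η) ^ (2 * m) ≤ Real.log N :=
    (Real.tendsto_log_atTop.comp tendsto_natCast_atTop_atTop).eventually_ge_atTop _
  have e4 : ∀ᶠ N : ℕ in atTop, (2 : ℝ) ≤ Real.log N :=
    (Real.tendsto_log_atTop.comp tendsto_natCast_atTop_atTop).eventually_ge_atTop _
  filter_upwards [e1, e2, e3, e4, eventually_ge_atTop 3] with N h1 h2 h3 h4 hN3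
  rw [← hω]
  obtain ⟨P, hPd⟩ : ∃ P : ℝ, P = (N : ℝ) ^ ((i : ℝ) * ω) := ⟨_, rfl⟩
  rw [← hPd] at h1 h2
  have hP0 : 0 < P := by linarith
  have hN0 : (0 : ℝ) < N := by
    have : 0 < N := by omega
    exact_mod_cast this
  have hN1 : (1 : ℝ) ≤ N := by
    have : 1 ≤ N := by omega
    exact_mod_cast this
  obtain ⟨J, hJ⟩ : ∃ J : ℕ, J = Nat.log 2 N + 1 := ⟨_, rfl⟩
  have hJ1 : (1 : ℝ) ≤ J := by
    have : 1 ≤ J := by omega
    exact_mod_cast this
  have hJ2 : (J : ℝ) ≤ 2 * Real.log N := by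
    have h5 : (Nat.log 2 N : ℝ) ≤ Real.logb 2 N := by
      have := Real.natLog_le_logb N 2
      exact_mod_cast this
    have h6 : Real.logb 2 N = Real.log N / Real.log 2 := rfl
    have h7 : Real.log N / Real.log 2 ≤ 3 / 2 * Real.log N := by
      rw [div_le_iff₀ (Real.log_pos (by norm_num))]
      have := Real.log_two_gt_d9
      nlinarith
    have h8 : (J : ℝ) = (Nat.log 2 N : ℝ) + 1 := by rw [hJ]; push_cast; ring
    rw [h8]
    rw [h6] at h5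
    linarith
  obtain ⟨B, hB⟩ : ∃ B : Finset ℕ, B = bq N ω i := ⟨_, rfl⟩
  rw [← hB]
  have hBp : ∀ p ∈ B, p.Prime ∧ P ≤ (p : ℝ) ∧ (p : ℝ) ≤ N * P := by
    intro p hp
    rw [hB] at hp
    unfold bq at hp
    rw [Finset.mem_filter, Finset.mem_range] at hp
    obtain ⟨hp1, hp2, hp3⟩ := hp
    refine ⟨hp2, by rw [hPd]; exact hp3, ?_⟩
    have h5 : (p : ℝ) < (N : ℝ) ^ (((i : ℝ) + 1) * ω) := Nat.lt_ceil.1 hp1
    have h6 : (N : ℝ) ^ (((i : ℝ) + 1) * ω) = (N : ℝ) ^ ω * P := by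
      rw [hPd, ← Real.rpow_add hN0]
      congr 1
      ring
    have h7 : (N : ℝ) ^ ω ≤ N := by
      calc (N : ℝ) ^ ω ≤ (N : ℝ) ^ (1 : ℝ) := Real.rpow_le_rpow_of_exponent_le hN1 hω1
        _ = N := Real.rpow_one _
    rw [h6] at h5
    exact h5.le.trans (mul_le_mul_of_nonneg_right h7 hP0.le)
  obtain ⟨δ, hδ⟩ : ∃ δ : ℝ, δ = η / (2 * J) := ⟨_, rfl⟩
  have hδ0 : 0 < δ := by rw [hδ]; positivity
  obtain ⟨S, hS⟩ : ∃ S : ℕ → Finset ℕ, S = fun j => B.filter (fun p => idx P p = j) := ⟨_, rfl⟩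
  obtain ⟨E, hE⟩ : ∃ E : ℕ → Finset ℕ, E = fun j => (Ioc N (2 * N)).filter
    (fun n => δ ≤ ‖∑ p ∈ S j, ψ n (p : ZMod (f n)) / p‖) := ⟨_, rfl⟩
  -- every counted `n` is in some `E j`
  have hsub : (Ioc N (2 * N)).filter (fun n => η ≤ |∑ p ∈ B, sx n p / p|) ⊆ (range J).biUnion E := by
    intro n hn
    rw [Finset.mem_filter] at hn
    obtain ⟨hnN, hn1⟩ := hn
    have hnN' := Finset.mem_Ioc.1 hnN
    have := hfz n
    have h5 := cmp_sum n N (f n) (ψ n) P (by omega) hnN'.2 (by omega) h1 B (fun p hp => ⟨(hBp p hp).1, (hBp p hp).2.1⟩)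
      (hψ1 n (by omega)).2.2
    have h6 : 16 * Real.log N / P ≤ η / 2 := by
      rw [div_le_iff₀ hP0]
      linarith
    have h7 : η / 2 ≤ ‖∑ p ∈ B, ψ n (p : ZMod (f n)) / p‖ := by linarith
    have h8 : ∑ p ∈ B, ψ n (p : ZMod (f n)) / p = ∑ j ∈ range J, ∑ p ∈ S j, ψ n (p : ZMod (f n)) / p := by
      rw [hS]
      refine (Finset.sum_fiberwise_of_maps_to ?_ _).symm
      intro p hp
      rw [Finset.mem_range, hJ]
      exact idx_lt P p N hP0 (hBp p hp).2.2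
    rw [Finset.mem_biUnion]
    by_contra hno
    push Not at hno
    have h9 : ∀ j ∈ range J, ‖∑ p ∈ S j, ψ n (p : ZMod (f n)) / p‖ < δ := by
      intro j hj
      have h10 := hno j hj
      rw [hE, Finset.mem_filter, not_and, not_le] at h10
      exact h10 hnN
    have h10 : ‖∑ p ∈ B, ψ n (p : ZMod (f n)) / p‖ < η / 2 := by
      rw [h8]
      have hne : (range J).Nonempty := ⟨0, by rw [Finset.mem_range]; omega⟩
      calc ‖∑ j ∈ range J, ∑ p ∈ S j, ψ n (p : ZMod (f n)) / p‖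
          ≤ ∑ j ∈ range J, ‖∑ p ∈ S j, ψ n (p : ZMod (f n)) / p‖ := norm_sum_le _ _
        _ < ∑ _j ∈ range J, δ := Finset.sum_lt_sum_of_nonempty hne h9
        _ = J * δ := by rw [Finset.sum_const, Finset.card_range, nsmul_eq_mul]
        _ = η / 2 := by rw [hδ]; field_simp
    linarith
  -- the large sieve
  have hEc : ∀ j ∈ range J, ((E j).card : ℝ) ≤ C / δ ^ (2 * m) := by
    intro j _
    rw [le_div_iff₀ (by positivity)]
    have h2j : (1 : ℝ) ≤ (2 : ℝ) ^ j := one_le_pow₀ (by norm_num)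
    have hPy : P ≤ (2 : ℝ) ^ j * P := by nlinarith
    refine hLm N ((2 : ℝ) ^ j * P) δ (S j) (E j) f hfz ψ (by omega) (by linarith) ?_ hδ0 ?_ ?_ ?_ ?_
    · have h5 : (N : ℝ) ^ 4 ≤ P ^ m := by
        rw [hPd, ← Real.rpow_natCast, ← Real.rpow_natCast, ← Real.rpow_mul hN0.le]
        refine Real.rpow_le_rpow_of_exponent_le hN1 ?_
        push_cast
        exact hmi
      exact h5.trans (pow_le_pow_left₀ hP0.le hPy m)
    · intro p hp
      rw [hS] at hp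
      simp only [Finset.mem_filter] at hp
      obtain ⟨hpB, hpj⟩ := hp
      have h5 := idx_spec P p hP0 (hBp p hpB).2.1
      rw [hpj] at h5
      exact ⟨(hBp p hpB).1, h5.1, h5.2⟩
    · intro n hn
      rw [hE] at hn
      simp only [Finset.mem_filter, Finset.mem_Ioc] at hn
      have h5 := hψ1 n (by omega)
      refine ⟨h5.1, h5.2.1.trans ?_⟩
      have h6 : n ^ 2 ≤ (2 * N) ^ 2 := Nat.pow_le_pow_left hn.1.2 2
      nlinarith
    · intro n hn n' hn' hne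
      rw [hE] at hn hn'
      simp only [Finset.mem_filter] at hn hn'
      exact hψ2 N hN3 n hn.1 n' hn'.1 hne
    · intro n hn
      rw [hE] at hn
      simp only [Finset.mem_filter] at hn
      exact hn.2
  have hlog0 : 0 ≤ Real.log N := by linarith
  calc ((((Ioc N (2 * N)).filter (fun n => η ≤ |∑ p ∈ B, sx n p / p|)).card : ℕ) : ℝ)
      ≤ (((range J).biUnion E).card : ℝ) := by exact_mod_cast Finset.card_le_card hsub
    _ ≤ ∑ j ∈ range J, ((E j).card : ℝ) := by exact_mod_cast Finset.card_biUnion_le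
    _ ≤ ∑ _j ∈ range J, C / δ ^ (2 * m) := Finset.sum_le_sum hEc
    _ = J * (C * (2 * J / η) ^ (2 * m)) := by
        rw [Finset.sum_const, Finset.card_range, nsmul_eq_mul, hδ]
        congr 1
        rw [div_eq_mul_inv, ← inv_pow, inv_div]
    _ ≤ (2 * Real.log N) * (C * (4 / η * Real.log N) ^ (2 * m)) := by
        have h5 : 2 * (J : ℝ) / η ≤ 4 / η * Real.log N := by
          rw [div_mul_eq_mul_div]
          exact div_le_div_of_nonneg_right (by linarith) hη.le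
        refine mul_le_mul hJ2 (mul_le_mul_of_nonneg_left (pow_le_pow_left₀ (by positivity) h5 _) hC.le)
          (by positivity) (by positivity)
    _ = (2 * C * (4 / η) ^ (2 * m)) * Real.log N ^ (2 * m + 1) := by
        rw [mul_pow, pow_succ]
        ring
    _ ≤ Real.log N * Real.log N ^ (2 * m + 1) := mul_le_mul_of_nonneg_right h3 (by positivity)
    _ = Real.log N ^ (2 * m + 2) := by ring

end Pool.Agent.Helper40.KS
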